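import Pool.Agent.N332.GK.Defs

/-! # Project GK, part P3 (helper123): the pointwise inequality -/

set_option autoImplicit false
set_option linter.unusedVariables false

namespace Pool.Agent.N123.GK

open Pool.Agent.N332.GK

/-- Bernoulli's inequality, homogeneous -/
theorem bern {x y : ℝ} (hx : 0 < x) (hy : 0 ≤ y) (hyx : y ≤ x) (n : ℕ) :
    x ^ n * (x - ((n : ℝ) + 1) * y) ≤ (x - y) ^ (n + 1) := by
  have h1 : (-2 : ℝ) ≤ -(y / x) := by
    have : y / x ≤ 1 := (div_le_one hx).2 hyx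
    linarith
  have h2 := one_add_mul_le_pow h1 (n + 1)
  have h3 : x ^ (n + 1) * (1 + ((n + 1 : ℕ) : ℝ) * -(y / x)) ≤
      x ^ (n + 1) * (1 + -(y / x)) ^ (n + 1) :=
    mul_le_mul_of_nonneg_left h2 (pow_nonneg hx.le _)
  have h4 : x ^ (n + 1) * (1 + -(y / x)) ^ (n + 1) = (x - y) ^ (n + 1) := by
    rw [← mul_pow]
    congr 1
    field_simp
    ring
  have h5 : x ^ (n + 1) * (1 + ((n + 1 : ℕ) : ℝ) * -(y / x)) =
      x ^ n * (x - ((n : ℝ) + 1) * y) := by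
    push_cast
    field_simp
    ring
  rw [h4, h5] at h3
  exact h3

theorem hh_mono (HH : ∀ i : ℕ, 0 < hh i ∧ hh (i + 1) ≤ ((i : ℝ) + 5) * sg ((i : ℝ) + 6) ∧
    ((i : ℝ) + 3) * hh (i + 2) ≤ ((i : ℝ) + 6) * hh i ∧
    ((i : ℝ) + 6) ≤ Kb (1 / ((i : ℝ) + 6)) * hh (i + 2)) (i : ℕ) :
    ((i : ℝ) + 5) * hh i ≤ ((i : ℝ) + 4) * hh (i + 1) := by
  cases i with
  | zero =>
    have h0 : hh 0 = 32 / 21 := rfl
    have h1 : hh (0 + 1) = 160 / 81 := rfl
    rw [h0, h1]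
    norm_num
  | succ j =>
    have h1 := (HH j).2.1
    have h2 : hh (j + 1 + 1) = hh (j + 1) + sg ((j : ℝ) + 6) := rfl
    rw [h2]
    push_cast
    nlinarith

theorem gg_pw (HH : ∀ i : ℕ, 0 < hh i ∧ hh (i + 1) ≤ ((i : ℝ) + 5) * sg ((i : ℝ) + 6) ∧
    ((i : ℝ) + 3) * hh (i + 2) ≤ ((i : ℝ) + 6) * hh i ∧
    ((i : ℝ) + 6) ≤ Kb (1 / ((i : ℝ) + 6)) * hh (i + 2))
    {x w : ℝ} (hx : 1 ≤ x) (i : ℕ) (h : ((i : ℝ) + 4) * x ^ 2 * (x - 1) ≤ hh i * w) :
    x ^ (i + 4) ≤ gg w i := by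
  have hw : 0 ≤ w := by
    have h1 : 0 ≤ ((i : ℝ) + 4) * x ^ 2 * (x - 1) :=
      mul_nonneg (by positivity) (by linarith)
    have h2 : 0 ≤ hh i * w := h1.trans h
    exact nonneg_of_mul_nonneg_right h2 (HH i).1
  induction i using Nat.twoStepInduction generalizing x with
  | zero =>
    have h0 : hh 0 = 32 / 21 := rfl
    have hg : gg w 0 = 1 + 32 / 21 * w + 256 / 2625 * w ^ 2 := rfl
    rw [hg]
    rw [h0] at h
    push_cast at h
    obtain ⟨u, hu⟩ : ∃ u, u = x - 1 := ⟨_, rfl⟩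
    have hx1 : x = 1 + u := by linarith
    have hu0 : 0 ≤ u := by linarith
    rw [hx1] at h ⊢
    have h1 : 21 / 8 * ((1 + u) ^ 2 * u) ≤ w := by nlinarith
    have h2 : 0 ≤ 21 / 8 * ((1 + u) ^ 2 * u) := by positivity
    have h3 : (21 / 8 * ((1 + u) ^ 2 * u)) ^ 2 ≤ w ^ 2 := pow_le_pow_left₀ h2 h1 2
    have h4 : 0 ≤ u ^ 2 * (2 - u ^ 2 + 84 / 125 * (1 + u) ^ 4) := by
      apply mul_nonneg (sq_nonneg _)
      have : (1 + u) ^ 4 = 1 + 4 * u + 6 * u ^ 2 + 4 * u ^ 3 + u ^ 4 := by ring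
      rw [this]
      have e1 : 0 ≤ u ^ 2 := by positivity
      have e2 : 0 ≤ u ^ 3 := by positivity
      have e3 : 0 ≤ u ^ 4 := by positivity
      nlinarith
    have h5 : 1 + 32 / 21 * (21 / 8 * ((1 + u) ^ 2 * u)) +
        256 / 2625 * (21 / 8 * ((1 + u) ^ 2 * u)) ^ 2 - (1 + u) ^ (0 + 4) =
        u ^ 2 * (2 - u ^ 2 + 84 / 125 * (1 + u) ^ 4) := by ring
    linarith
  | one =>
    have h0 : hh 1 = 160 / 81 := rfl
    have hg : gg w 1 = 1 + 160 / 81 * w + 256 / 945 * w ^ 2 := rfl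
    rw [hg]
    rw [h0] at h
    push_cast at h
    obtain ⟨u, hu⟩ : ∃ u, u = x - 1 := ⟨_, rfl⟩
    have hx1 : x = 1 + u := by linarith
    have hu0 : 0 ≤ u := by linarith
    rw [hx1] at h ⊢
    have h1 : 81 / 32 * ((1 + u) ^ 2 * u) ≤ w := by nlinarith
    have h2 : 0 ≤ 81 / 32 * ((1 + u) ^ 2 * u) := by positivity
    have h3 : (81 / 32 * ((1 + u) ^ 2 * u)) ^ 2 ≤ w ^ 2 := pow_le_pow_left₀ h2 h1 2
    have h4 : 0 ≤ u ^ 2 * (243 / 140 * (1 + u) ^ 4 - 5 * u - 5 * u ^ 2 - u ^ 3) := by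
      apply mul_nonneg (sq_nonneg _)
      have : (1 + u) ^ 4 = 1 + 4 * u + 6 * u ^ 2 + 4 * u ^ 3 + u ^ 4 := by ring
      rw [this]
      have e1 : 0 ≤ u ^ 2 := by positivity
      have e2 : 0 ≤ u ^ 3 := by positivity
      have e3 : 0 ≤ u ^ 4 := by positivity
      nlinarith
    have h5 : 1 + 160 / 81 * (81 / 32 * ((1 + u) ^ 2 * u)) +
        256 / 945 * (81 / 32 * ((1 + u) ^ 2 * u)) ^ 2 - (1 + u) ^ (1 + 4) =
        u ^ 2 * (243 / 140 * (1 + u) ^ 4 - 5 * u - 5 * u ^ 2 - u ^ 3) := by ring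
    linarith
  | more i ih0 ih1 =>
    obtain ⟨c1, c2, c3, -⟩ := HH i
    have c4 : 0 < hh (i + 1) := (HH (i + 1)).1
    have c5 : 0 < hh (i + 2) := (HH (i + 2)).1
    have hrec : hh (i + 2) = hh (i + 1) + sg ((i : ℝ) + 6) := rfl
    have hgrec : gg w (i + 2) = gg w (i + 1) + sg ((i : ℝ) + 6) * w * gg w i := rfl
    have hi0 : (0 : ℝ) ≤ i := Nat.cast_nonneg i
    have hm0 := hh_mono HH i
    have hm1 := hh_mono HH (i + 1)
    push_cast at h hm1
    rw [show (i : ℝ) + 1 + 5 = i + 6 by ring, show (i : ℝ) + 1 + 4 = i + 5 by ring,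
      show i + 1 + 1 = i + 2 from rfl] at hm1
    rw [show (i : ℝ) + 2 + 4 = i + 6 by ring] at h
    obtain ⟨u, hu⟩ : ∃ u, u = x - 1 := ⟨_, rfl⟩
    have hu0 : 0 ≤ u := by linarith
    have hx0 : 0 < x := by linarith
    rw [← hu] at h
    -- the numbers `eps`, `eps'`
    obtain ⟨e, he⟩ : ∃ e, e = 1 - ((i : ℝ) + 6) * hh (i + 1) / (((i : ℝ) + 5) * hh (i + 2)) :=
      ⟨_, rfl⟩
    obtain ⟨e', he'⟩ : ∃ e', e' = 1 - ((i : ℝ) + 6) * hh i / (((i : ℝ) + 4) * hh (i + 2)) :=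
      ⟨_, rfl⟩
    have p5 : 0 < ((i : ℝ) + 5) * hh (i + 2) := by positivity
    have p4 : 0 < ((i : ℝ) + 4) * hh (i + 2) := by positivity
    have he0 : 0 ≤ e := by
      rw [he, sub_nonneg, div_le_one p5]
      exact hm1
    have he1 : e ≤ 1 := by
      have : 0 ≤ ((i : ℝ) + 6) * hh (i + 1) / (((i : ℝ) + 5) * hh (i + 2)) := by positivity
      linarith
    have he0' : 0 ≤ e' := by
      rw [he', sub_nonneg, div_le_one p4]
      have h5 : 0 < (i : ℝ) + 5 := by linarith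
      have h6 : ((i : ℝ) + 5) * (((i : ℝ) + 6) * hh i) ≤
          ((i : ℝ) + 5) * (((i : ℝ) + 4) * hh (i + 2)) := by
        have h7 : ((i : ℝ) + 6) * (((i : ℝ) + 5) * hh i) ≤
            ((i : ℝ) + 6) * (((i : ℝ) + 4) * hh (i + 1)) :=
          mul_le_mul_of_nonneg_left hm0 (by linarith)
        have h8 : ((i : ℝ) + 4) * (((i : ℝ) + 6) * hh (i + 1)) ≤
            ((i : ℝ) + 4) * (((i : ℝ) + 5) * hh (i + 2)) :=
          mul_le_mul_of_nonneg_left hm1 (by linarith)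
        linarith
      exact le_of_mul_le_mul_left h6 h5
    have he1' : e' ≤ 1 := by
      have : 0 ≤ ((i : ℝ) + 6) * hh i / (((i : ℝ) + 4) * hh (i + 2)) := by positivity
      linarith
    have hF : ((i : ℝ) + 4) * e' ≤ 1 := by
      have h6 : ((i : ℝ) + 4) * e' = ((i : ℝ) + 4) - ((i : ℝ) + 6) * hh i / hh (i + 2) := by
        rw [he']
        field_simp
      have h7 : (i : ℝ) + 3 ≤ ((i : ℝ) + 6) * hh i / hh (i + 2) := by
        rw [le_div_iff₀ c5]
        exact c3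
      linarith
    have hE : sg ((i : ℝ) + 6) * ((i : ℝ) + 6) = (1 + ((i : ℝ) + 5) * e) * hh (i + 2) := by
      have h6 : sg ((i : ℝ) + 6) = hh (i + 2) - hh (i + 1) := by linarith
      rw [h6, he]
      field_simp
      ring
    have hE0 : 0 ≤ ((i : ℝ) + 5) * e := by positivity
    -- the smaller numbers
    have heu : 0 ≤ e * u := by positivity
    have heu' : 0 ≤ e' * u := by positivity
    have heux : e * u ≤ x := by nlinarith
    have heux' : e' * u ≤ x := by nlinarith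
    have ha1 : 1 ≤ x - e * u := by nlinarith
    have hb1 : 1 ≤ x - e' * u := by nlinarith
    have hax : x - e * u ≤ x := by linarith
    have hbx : x - e' * u ≤ x := by linarith
    have hA : (x - e * u) ^ (i + 1 + 4) ≤ gg w (i + 1) := by
      refine ih1 ha1 ?_
      push_cast
      have h6 : ((i : ℝ) + 1 + 4) * (x - e * u) ^ 2 * (x - e * u - 1) =
          (x - e * u) ^ 2 * (((i : ℝ) + 6) * u) * (hh (i + 1) / hh (i + 2)) := by
        have h7 : x - e * u - 1 = (1 - e) * u := by rw [hu]; ring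
        rw [h7]
        have h8 : (1 - e) = ((i : ℝ) + 6) * hh (i + 1) / (((i : ℝ) + 5) * hh (i + 2)) := by
          rw [he]; ring
        rw [h8]
        have h9 : (i : ℝ) + 1 + 4 = i + 5 := by ring
        rw [h9]
        have h10 : (i : ℝ) + 5 ≠ 0 := by positivity
        field_simp
      rw [h6]
      have h7 : (x - e * u) ^ 2 ≤ x ^ 2 := pow_le_pow_left₀ (by linarith) hax 2
      have h8 : (x - e * u) ^ 2 * (((i : ℝ) + 6) * u) ≤ hh (i + 2) * w := by
        have h9 : (x - e * u) ^ 2 * (((i : ℝ) + 6) * u) ≤ x ^ 2 * (((i : ℝ) + 6) * u) :=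
          mul_le_mul_of_nonneg_right h7 (by positivity)
        linarith
      calc (x - e * u) ^ 2 * (((i : ℝ) + 6) * u) * (hh (i + 1) / hh (i + 2)) ≤
          hh (i + 2) * w * (hh (i + 1) / hh (i + 2)) :=
            mul_le_mul_of_nonneg_right h8 (by positivity)
        _ = hh (i + 1) * w := by field_simp
    have hB : (x - e' * u) ^ (i + 4) ≤ gg w i := by
      refine ih0 hb1 ?_
      have h6 : ((i : ℝ) + 4) * (x - e' * u) ^ 2 * (x - e' * u - 1) =
          (x - e' * u) ^ 2 * (((i : ℝ) + 6) * u) * (hh i / hh (i + 2)) := by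
        have h7 : x - e' * u - 1 = (1 - e') * u := by rw [hu]; ring
        rw [h7]
        have h8 : (1 - e') = ((i : ℝ) + 6) * hh i / (((i : ℝ) + 4) * hh (i + 2)) := by
          rw [he']; ring
        rw [h8]
        have h10 : (i : ℝ) + 4 ≠ 0 := by positivity
        field_simp
      rw [h6]
      have h7 : (x - e' * u) ^ 2 ≤ x ^ 2 := pow_le_pow_left₀ (by linarith) hbx 2
      have h8 : (x - e' * u) ^ 2 * (((i : ℝ) + 6) * u) ≤ hh (i + 2) * w := by
        have h9 : (x - e' * u) ^ 2 * (((i : ℝ) + 6) * u) ≤ x ^ 2 * (((i : ℝ) + 6) * u) :=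
          mul_le_mul_of_nonneg_right h7 (by positivity)
        linarith
      calc (x - e' * u) ^ 2 * (((i : ℝ) + 6) * u) * (hh i / hh (i + 2)) ≤
          hh (i + 2) * w * (hh i / hh (i + 2)) :=
            mul_le_mul_of_nonneg_right h8 (by positivity)
        _ = hh i * w := by field_simp
    -- Bernoulli
    have hA' : x ^ (i + 4) * (x - ((i : ℝ) + 5) * e * u) ≤ (x - e * u) ^ (i + 1 + 4) := by
      have h6 := bern hx0 heu heux (i + 4)
      push_cast at h6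
      rw [show (i : ℝ) + 4 + 1 = i + 5 by ring, ← mul_assoc] at h6
      exact h6
    have hB' : x ^ (i + 3) * (x - ((i : ℝ) + 4) * e' * u) ≤ (x - e' * u) ^ (i + 4) := by
      have h6 := bern hx0 heu' heux' (i + 3)
      push_cast at h6
      rw [show (i : ℝ) + 3 + 1 = i + 4 by ring, ← mul_assoc] at h6
      exact h6
    have hxF : 1 ≤ x - ((i : ℝ) + 4) * e' * u := by nlinarith
    have hsg : 0 < sg ((i : ℝ) + 6) := by
      rw [sg]
      have h6 : (0 : ℝ) < 1 - 1 / ((i : ℝ) + 6) := by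
        rw [sub_pos, div_lt_one (by positivity)]
        linarith
      positivity
    -- `sg k * w ≥ (1 + E) x ^ 2 u`
    have hsw : (1 + ((i : ℝ) + 5) * e) * (x ^ 2 * u) ≤ sg ((i : ℝ) + 6) * w := by
      have h6 : sg ((i : ℝ) + 6) * (((i : ℝ) + 6) * x ^ 2 * u) ≤
          sg ((i : ℝ) + 6) * (hh (i + 2) * w) := mul_le_mul_of_nonneg_left h hsg.le
      have h7 : hh (i + 2) * ((1 + ((i : ℝ) + 5) * e) * (x ^ 2 * u)) ≤
          hh (i + 2) * (sg ((i : ℝ) + 6) * w) := by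
        calc hh (i + 2) * ((1 + ((i : ℝ) + 5) * e) * (x ^ 2 * u)) =
            ((1 + ((i : ℝ) + 5) * e) * hh (i + 2)) * (x ^ 2 * u) := by ring
          _ = (sg ((i : ℝ) + 6) * ((i : ℝ) + 6)) * (x ^ 2 * u) := by rw [hE]
          _ = sg ((i : ℝ) + 6) * (((i : ℝ) + 6) * x ^ 2 * u) := by ring
          _ ≤ sg ((i : ℝ) + 6) * (hh (i + 2) * w) := h6
          _ = hh (i + 2) * (sg ((i : ℝ) + 6) * w) := by ring
      exact le_of_mul_le_mul_left h7 c5
    rw [hgrec]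
    have h10 : sg ((i : ℝ) + 6) * w * (x ^ (i + 3) * (x - ((i : ℝ) + 4) * e' * u)) ≤
        sg ((i : ℝ) + 6) * w * gg w i :=
      mul_le_mul_of_nonneg_left (hB'.trans hB) (mul_nonneg hsg.le hw)
    have h11 : (1 + ((i : ℝ) + 5) * e) * (x ^ 2 * u) *
        (x ^ (i + 3) * (x - ((i : ℝ) + 4) * e' * u)) ≤
        sg ((i : ℝ) + 6) * w * (x ^ (i + 3) * (x - ((i : ℝ) + 4) * e' * u)) :=
      mul_le_mul_of_nonneg_right hsw (mul_nonneg (pow_nonneg hx0.le _) (by linarith))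
    have h12 : (1 + ((i : ℝ) + 5) * e) * (x ^ 2 * u) * (x ^ (i + 3) * 1) ≤
        (1 + ((i : ℝ) + 5) * e) * (x ^ 2 * u) *
        (x ^ (i + 3) * (x - ((i : ℝ) + 4) * e' * u)) := by
      apply mul_le_mul_of_nonneg_left _ (by positivity)
      exact mul_le_mul_of_nonneg_left hxF (pow_nonneg hx0.le _)
    have h13 : x ^ (i + 2 + 4) + x ^ (i + 4) * (((i : ℝ) + 5) * e * u * u) =
        x ^ (i + 4) * (x - ((i : ℝ) + 5) * e * u) +
          (1 + ((i : ℝ) + 5) * e) * (x ^ 2 * u) * (x ^ (i + 3) * 1) := by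
      have h14 : x ^ (i + 2 + 4) = x ^ (i + 3) * x ^ 3 := by ring
      have h15 : x ^ (i + 4) = x ^ (i + 3) * x := by ring
      rw [h14, h15, hu]
      ring
    have h14 : 0 ≤ x ^ (i + 4) * (((i : ℝ) + 5) * e * u * u) := by positivity
    have h15 := hA'.trans hA
    linarith

end Pool.Agent.N123.GK
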